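import Mathlib
import Pool.Agent.X238.DW.Stm3

/-! Part `DW3_CO` of project DW: the cut-off estimate `S_CO`. -/

set_option autoImplicit false

namespace Pool.Agent.X25.DW

open MeasureTheory Set Filter Topology
open Pool.Agent.X238.DW

universe v

lemma cutL_nonneg (n : ℕ) (t : ℝ) : 0 ≤ cutL n t := le_max_left _ _

lemma cutL_le_one (n : ℕ) (t : ℝ) : cutL n t ≤ 1 :=
  max_le zero_le_one (min_le_left _ _)

lemma cutL_continuous (n : ℕ) : Continuous (cutL n) := by
  unfold cutL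
  fun_prop

/-- the pointwise bound -/
lemma point (M γ δ : ℝ) (n : ℕ) (hγ : 0 < γ) (hδ : 0 < δ) (hM : 0 ≤ M) (s x : ℝ) (hs : 0 < s) (hx : 0 ≤ x)
    (hxM : x ≤ M * Real.exp (-(γ * s))) :
    x ≤ cutL n (-s) * (x ^ 2 / (x + δ)) + ((Ioc (0 : ℝ) (1 / ((n : ℝ) + 1))).indicator (fun _ => M) s +
      (Ioi (n : ℝ)).indicator (fun s => M * Real.exp (-γ * s)) s +
      (Ioc (0 : ℝ) ((n : ℝ) + 1)).indicator (fun _ => δ) s) := by
  have hn : (0 : ℝ) < (n : ℝ) + 1 := by positivity
  have h0 := cutL_nonneg n (-s)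
  have h1 := cutL_le_one n (-s)
  have hxd : 0 < x + δ := by linarith
  -- main algebra
  have h2 : x - cutL n (-s) * (x ^ 2 / (x + δ)) ≤ (1 - cutL n (-s)) * x + cutL n (-s) * δ := by
    have h3 : x ^ 2 / (x + δ) = x - x * δ / (x + δ) := by
      field_simp
      ring
    have h4 : x * δ / (x + δ) ≤ δ := by
      rw [div_le_iff₀ hxd]
      nlinarith
    rw [h3]
    nlinarith [mul_le_mul_of_nonneg_left h4 h0]
  have hb : cutL n (-s) * δ ≤ (Ioc (0 : ℝ) ((n : ℝ) + 1)).indicator (fun _ => δ) s := by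
    by_cases hs1 : s ≤ (n : ℝ) + 1
    · have hm : s ∈ Ioc (0 : ℝ) ((n : ℝ) + 1) := ⟨hs, hs1⟩
      rw [indicator_of_mem hm]
      nlinarith
    · have h5 : cutL n (-s) = 0 := by
        unfold cutL
        apply max_eq_left
        refine (min_le_right _ _).trans ((min_le_left _ _).trans ?_)
        linarith
      rw [h5, zero_mul]
      exact indicator_nonneg (fun _ _ => hδ.le) _
  have hA : 0 ≤ (Ioc (0 : ℝ) (1 / ((n : ℝ) + 1))).indicator (fun _ => M) s :=
    indicator_nonneg (fun _ _ => hM) _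
  have hB : 0 ≤ (Ioi (n : ℝ)).indicator (fun s => M * Real.exp (-γ * s)) s :=
    indicator_nonneg (fun _ _ => mul_nonneg hM (Real.exp_pos _).le) _
  have ha : (1 - cutL n (-s)) * x ≤ (Ioc (0 : ℝ) (1 / ((n : ℝ) + 1))).indicator (fun _ => M) s +
      (Ioi (n : ℝ)).indicator (fun s => M * Real.exp (-γ * s)) s := by
    have hx1 : (1 - cutL n (-s)) * x ≤ x := by nlinarith
    by_cases hs1 : s ≤ 1 / ((n : ℝ) + 1)
    · have hm : s ∈ Ioc (0 : ℝ) (1 / ((n : ℝ) + 1)) := ⟨hs, hs1⟩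
      have h6 : x ≤ M := by
        refine hxM.trans ?_
        have : Real.exp (-(γ * s)) ≤ 1 := Real.exp_le_one_iff.mpr (by nlinarith)
        nlinarith
      have h7 : (Ioc (0 : ℝ) (1 / ((n : ℝ) + 1))).indicator (fun _ => M) s = M :=
        indicator_of_mem hm _
      linarith
    · by_cases hs2 : (n : ℝ) < s
      · have h7 : (Ioi (n : ℝ)).indicator (fun s => M * Real.exp (-γ * s)) s = M * Real.exp (-γ * s) :=
          indicator_of_mem (show s ∈ Ioi (n : ℝ) from hs2) _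
        have h8 : M * Real.exp (-γ * s) = M * Real.exp (-(γ * s)) := by rw [neg_mul]
        linarith
      · have h5 : cutL n (-s) = 1 := by
          unfold cutL
          have h9 : (1 : ℝ) ≤ (n : ℝ) + 1 + -s := by linarith
          have h10 : (1 : ℝ) ≤ -(((n : ℝ) + 1) * -s) := by
            have : 1 / ((n : ℝ) + 1) < s := not_le.mp hs1
            rw [div_lt_iff₀ hn] at this
            nlinarith
          rw [min_eq_left (le_min h9 h10)]
          exact max_eq_right zero_le_one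
        rw [h5]
        linarith
  linarith

theorem t_CO : S_CO.{v} := by
  intro M γ η hγ hη
  -- choice of `n`
  obtain ⟨n, hn1⟩ : ∃ n : ℕ, |M| * (1 / ((n : ℝ) + 1)) + |M| * (Real.exp (-γ * n) / γ) ≤ η / 2 := by
    have t1 : Tendsto (fun n : ℕ => |M| * (1 / ((n : ℝ) + 1))) atTop (𝓝 (|M| * 0)) :=
      tendsto_one_div_add_atTop_nhds_zero_nat.const_mul _
    have t2 : Tendsto (fun n : ℕ => |M| * (Real.exp (-γ * n) / γ)) atTop (𝓝 (|M| * (0 / γ))) := by
      refine Tendsto.const_mul _ (Tendsto.div_const ?_ _)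
      refine Real.tendsto_exp_atBot.comp ?_
      exact Tendsto.const_mul_atTop_of_neg (by linarith) tendsto_natCast_atTop_atTop
    have t3 := t1.add t2
    have t4 : |M| * 0 + |M| * (0 / γ) = 0 := by simp
    rw [t4] at t3
    have t5 := t3.eventually (gt_mem_nhds (show (0 : ℝ) < η / 2 by linarith))
    obtain ⟨n, hn⟩ := t5.exists
    exact ⟨n, hn.le⟩
  have hn : (0 : ℝ) < (n : ℝ) + 1 := by positivity
  refine ⟨n, η / (2 * ((n : ℝ) + 1)), by positivity, ?_⟩
  intro V _ g hg hgM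
  set δ : ℝ := η / (2 * ((n : ℝ) + 1)) with hδdef
  have hδ : 0 < δ := by positivity
  have hM : 0 ≤ M := by
    have := hgM 0 le_rfl
    simp only [mul_zero, neg_zero, Real.exp_zero, mul_one] at this
    exact (norm_nonneg _).trans this
  rw [abs_of_nonneg hM] at hn1
  -- integrability
  have i1 : IntegrableOn (fun s : ℝ => M * Real.exp (-γ * s)) (Ioi 0) :=
    (exp_neg_integrableOn_Ioi 0 hγ).const_mul _
  have hgn : Continuous fun s => ‖g s‖ ^ 2 / (‖g s‖ + δ) := by
    refine Continuous.div (by fun_prop) (by fun_prop) fun s => ?_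
    have := norm_nonneg (g s)
    positivity
  have i2 : IntegrableOn (fun s : ℝ => cutL n (-s) * (‖g s‖ ^ 2 / (‖g s‖ + δ))) (Ioi 0) := by
    refine Integrable.mono' i1 ?_ ?_
    · exact (((cutL_continuous n).comp continuous_neg).mul hgn).aestronglyMeasurable
    · refine (ae_restrict_iff' measurableSet_Ioi).mpr (Eventually.of_forall fun s hs => ?_)
      have h0 := cutL_nonneg n (-s)
      have h1 := cutL_le_one n (-s)
      have hx := norm_nonneg (g s)
      have h3 : 0 ≤ ‖g s‖ ^ 2 / (‖g s‖ + δ) := by positivity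
      have h4 : ‖g s‖ ^ 2 / (‖g s‖ + δ) ≤ ‖g s‖ := by
        rw [div_le_iff₀ (by positivity)]
        nlinarith
      rw [Real.norm_of_nonneg (mul_nonneg h0 h3)]
      have h5 := hgM s (le_of_lt hs)
      rw [← neg_mul] at h5
      calc cutL n (-s) * (‖g s‖ ^ 2 / (‖g s‖ + δ)) ≤ 1 * (‖g s‖ ^ 2 / (‖g s‖ + δ)) :=
            mul_le_mul_of_nonneg_right h1 h3
        _ ≤ M * Real.exp (-γ * s) := by rw [one_mul]; exact h4.trans h5
  have j1 : IntegrableOn ((Ioc (0 : ℝ) (1 / ((n : ℝ) + 1))).indicator (fun _ => M)) (Ioi 0) := by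
    have : IntegrableOn (fun _ : ℝ => M) (Ioc (0 : ℝ) (1 / ((n : ℝ) + 1))) :=
      continuous_const.integrableOn_Ioc
    exact ((integrable_indicator_iff measurableSet_Ioc).mpr this).integrableOn
  have j2 : IntegrableOn ((Ioi (n : ℝ)).indicator (fun s => M * Real.exp (-γ * s))) (Ioi 0) := by
    have : IntegrableOn (fun s : ℝ => M * Real.exp (-γ * s)) (Ioi (n : ℝ)) :=
      (exp_neg_integrableOn_Ioi (n : ℝ) hγ).const_mul _
    exact ((integrable_indicator_iff measurableSet_Ioi).mpr this).integrableOn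
  have j3 : IntegrableOn ((Ioc (0 : ℝ) ((n : ℝ) + 1)).indicator (fun _ => δ)) (Ioi 0) := by
    have : IntegrableOn (fun _ : ℝ => δ) (Ioc (0 : ℝ) ((n : ℝ) + 1)) :=
      continuous_const.integrableOn_Ioc
    exact ((integrable_indicator_iff measurableSet_Ioc).mpr this).integrableOn
  have v1 : ∫ s in Ioi (0 : ℝ), (Ioc (0 : ℝ) (1 / ((n : ℝ) + 1))).indicator (fun _ => M) s =
      M * (1 / ((n : ℝ) + 1)) := by
    rw [setIntegral_indicator measurableSet_Ioc]
    have e1 : Ioi (0 : ℝ) ∩ Ioc (0 : ℝ) (1 / ((n : ℝ) + 1)) = Ioc (0 : ℝ) (1 / ((n : ℝ) + 1)) :=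
      inter_eq_right.mpr fun x hx => hx.1
    rw [e1, setIntegral_const, Real.volume_real_Ioc_of_le (by positivity), smul_eq_mul]
    ring
  have v2 : ∫ s in Ioi (0 : ℝ), (Ioi (n : ℝ)).indicator (fun s => M * Real.exp (-γ * s)) s =
      M * (Real.exp (-γ * n) / γ) := by
    rw [setIntegral_indicator measurableSet_Ioi]
    have e1 : Ioi (0 : ℝ) ∩ Ioi (n : ℝ) = Ioi (n : ℝ) :=
      inter_eq_right.mpr (Ioi_subset_Ioi (Nat.cast_nonneg n))
    rw [e1, integral_const_mul, integral_exp_mul_Ioi (by linarith)]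
    congr 1
    rw [div_neg, neg_div, neg_neg]
  have v3 : ∫ s in Ioi (0 : ℝ), (Ioc (0 : ℝ) ((n : ℝ) + 1)).indicator (fun _ => δ) s =
      δ * ((n : ℝ) + 1) := by
    rw [setIntegral_indicator measurableSet_Ioc]
    have e1 : Ioi (0 : ℝ) ∩ Ioc (0 : ℝ) ((n : ℝ) + 1) = Ioc (0 : ℝ) ((n : ℝ) + 1) :=
      inter_eq_right.mpr fun x hx => hx.1
    rw [e1, setIntegral_const, Real.volume_real_Ioc_of_le (by positivity), smul_eq_mul]
    ring
  have hδ2 : δ * ((n : ℝ) + 1) = η / 2 := by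
    rw [hδdef]
    field_simp
  have step : ∫ s in Ioi (0 : ℝ), ‖g s‖ ≤ ∫ s in Ioi (0 : ℝ), (cutL n (-s) * (‖g s‖ ^ 2 / (‖g s‖ + δ)) +
      ((Ioc (0 : ℝ) (1 / ((n : ℝ) + 1))).indicator (fun _ => M) s +
      (Ioi (n : ℝ)).indicator (fun s => M * Real.exp (-γ * s)) s +
      (Ioc (0 : ℝ) ((n : ℝ) + 1)).indicator (fun _ => δ) s)) := by
    refine integral_mono_of_nonneg (Eventually.of_forall fun s => norm_nonneg _)
      (Integrable.add i2 (Integrable.add (Integrable.add j1 j2) j3)) ?_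
    refine (ae_restrict_iff' measurableSet_Ioi).mpr (Eventually.of_forall fun s hs => ?_)
    exact point M γ δ n hγ hδ hM s ‖g s‖ hs (norm_nonneg _) (hgM s (le_of_lt hs))
  have j12 : IntegrableOn (fun s => (Ioc (0 : ℝ) (1 / ((n : ℝ) + 1))).indicator (fun _ => M) s +
      (Ioi (n : ℝ)).indicator (fun s => M * Real.exp (-γ * s)) s) (Ioi 0) := Integrable.add j1 j2
  have j123 : IntegrableOn (fun s => (Ioc (0 : ℝ) (1 / ((n : ℝ) + 1))).indicator (fun _ => M) s +
      (Ioi (n : ℝ)).indicator (fun s => M * Real.exp (-γ * s)) s +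
      (Ioc (0 : ℝ) ((n : ℝ) + 1)).indicator (fun _ => δ) s) (Ioi 0) := Integrable.add j12 j3
  rw [integral_add i2 j123, integral_add j12 j3, integral_add j1 j2, v1, v2, v3, hδ2] at step
  linarith

end Pool.Agent.X25.DW
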